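import Pool.Agent.Lib.MP_b5021c_nt.SF.H76.QsgA
import Pool.Agent.Lib.MP_b5021c_nt.B.H47.Qv3
import Pool.Agent.Lib.MP_b5021c_nt.E.H24.Qm3
import Pool.Agent.Lib.MP_b5021c_nt.B.H96.E3Em

/-!
# Board b5, stage 3, chapter SF, row SF_QSG (helper76): the sum of the masses
-/

namespace Pool.Agent.B5.H76

open scoped LaurentPolynomial
open AddMonoidAlgebra Pool.Agent.B5.H71

set_option linter.unusedSectionVars false

section Mev

variable {L : Type} [AddCommGroup L]

theorem qs_mev_em (k1 : L →+ ℤ) (lam : Ker k1 →+ ℤ) (lam' : L →+ ℤ)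
    (hl : ∀ a : Ker k1, lam' (a : L) = lam a) (u : AddChar (Ker k1) Circle)
    (u' : AddChar L Circle) (hu : ∀ a : Ker k1, u' (a : L) = u a) (s t : ℂ)
    (F : CA (Ker k1)) :
    mev u' ![lam', k1] ![s, t] (em (Ker k1) F) = (sl u lam F).eval s := by
  induction F using AddMonoidAlgebra.induction_linear with
  | zero => simp [mev, sl]
  | add f g hf hg => rw [map_add, H47.qv_mev_add, hf, hg, sl_add, Polynomial.eval_add]
  | single a c =>
    rw [em_single, H47.qv_mev_single, sl_single, hu, Fin.prod_univ_two]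
    have h0 : k1 (a : L) = 0 := a.2
    simp [hl, h0]

theorem qs_mev_shift (k1 : L →+ ℤ) (S : L) (h : k1 S = 1)
    (lam : Ker k1 →+ ℤ) (lam' : L →+ ℤ) (hS : lam' S = 0)
    (hl : ∀ a : Ker k1, lam' (a : L) = lam a) (u : AddChar (Ker k1) Circle)
    (u' : AddChar L Circle) (hu : ∀ a : Ker k1, u' (a : L) = u a) (huS : u' S = 1)
    (s t : ℂ) (F : CA (Ker k1)) :
    mev u' ![lam', k1] ![s, t] (single S 1 * em (Ker k1) F) =
      t * (sl u lam F).eval s := by
  induction F using AddMonoidAlgebra.induction_linear with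
  | zero => simp [mev, sl]
  | add f g hf hg =>
    rw [map_add, mul_add, H47.qv_mev_add, hf, hg, sl_add, Polynomial.eval_add, mul_add]
  | single a c =>
    rw [em_single, single_mul_single, one_mul, H47.qv_mev_single, sl_single,
      AddChar.map_add_eq_mul, hu, huS, one_mul, Fin.prod_univ_two]
    have h0 : k1 (a : L) = 0 := a.2
    simp [hl, h0, hS, h]
    ring

end Mev

section Core

variable {O : Type} [CommRing O] [IsDomain O] [IsPrincipalIdealRing O] [Coef O] {L : Type}
  [AddCommGroup L]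

/-- `|Y| ≤ |X|` in the disc, for the face `kj = 0` of a stable element. -/
theorem qs_core [Module.Free ℤ L] [Module.Finite ℤ L] (hF : FaceS) (hSt : StSpecS)
    (hMu : MultiS) (k1 kj : L →+ ℤ) (S : L) (h : k1 S = 1) (D : AO O L)
    (hD : ∀ a ∈ supp D, k1 a = 0 ∨ k1 a = 1) (hDj : Nn kj D) (hst : Stable D)
    (lam : Ker k1 →+ ℤ) (hX : Pos lam (res (Ker k1) (gpart kj 0 D)))
    (hY : ∀ a ∈ supp (res (Ker k1) (single (-S) 1 * gpart kj 0 D)), 0 ≤ lam a)
    (z : Circle) (hz : evR z (D.coeff 0) ≠ 0) (u : AddChar (Ker k1) Circle) (s : ℂ)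
    (hs : ‖s‖ < 1) :
    ‖(sl u lam (spec z (res (Ker k1) (single (-S) 1 * gpart kj 0 D)))).eval s‖ ≤
      ‖(sl u lam (spec z (res (Ker k1) (gpart kj 0 D)))).eval s‖ := by
  have hEst : Stable (gpart kj 0 D) := (hF O L D kj hst hDj).1
  have hE0 : (gpart kj 0 D).coeff 0 = D.coeff 0 :=
    Finsupp.filter_apply_pos (fun a => kj a = 0) _ (map_zero kj)
  have hEC : StableC (spec z (gpart kj 0 D)) := (hSt O L _).1 hEst z (by rw [hE0]; exact hz)
  have hDE : ∀ a ∈ supp (gpart kj 0 D), k1 a = 0 ∨ k1 a = 1 := by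
    intro a ha
    apply hD a
    intro h1
    apply ha
    change (D.coeff.filter fun a => kj a = 0) a = 0
    rw [Finsupp.filter_apply, h1, ite_self]
  generalize gpart kj 0 D = E at hX hY hEst hEC hDE ⊢
  have hE := decomp k1 S h E hDE
  set lam' : L →+ ℤ := lam.comp (prj k1 S h) with hlam'
  set u' : AddChar L Circle := extc k1 S h u 1 with hu'
  have hl : ∀ a : Ker k1, lam' (a : L) = lam a := by
    intro a
    change lam (prj k1 S h (a : L)) = lam a
    rw [prj_ker]
  have hlS : lam' S = 0 := by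
    change lam (prj k1 S h S) = 0
    rw [prj_self, map_zero]
  have hu : ∀ a : Ker k1, u' (a : L) = u a := by
    intro a
    rw [hu', extc_ker]
  have huS : u' S = 1 := extc_self _ _ _ _ _
  have hsupp : ∀ a ∈ (spec z E).coeff.support, E.coeff a ≠ 0 := by
    intro a ha h2
    rw [Finsupp.mem_support_iff, spec_coeff, h2, map_zero] at ha
    exact ha rfl
  have hcase : ∀ a, E.coeff a ≠ 0 → (k1 a = 0 ∧ (a ≠ 0 → 0 < lam' a)) ∨
      (k1 a = 1 ∧ 0 ≤ lam' a) := by
    intro a ha
    rcases hDE a ha with h1 | h1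
    · left
      refine ⟨h1, fun ha0 => ?_⟩
      have h4 := hl ⟨a, h1⟩
      change lam' a = _ at h4
      rw [h4]
      apply hX
      · rw [Finsupp.mem_support_iff]
        exact ha
      · intro h5
        apply ha0
        exact congrArg (fun x : Ker k1 => (x : L)) h5
    · right
      refine ⟨h1, ?_⟩
      have h2 : k1 (-S + a) = 0 := by rw [map_add, map_neg, h, h1]; rfl
      have h4 := hl ⟨-S + a, h2⟩
      change lam' (-S + a) = _ at h4
      rw [map_add, map_neg, hlS, neg_zero, zero_add] at h4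
      rw [h4]
      apply hY
      change (single (-S) 1 * E).coeff (-S + a) ≠ 0
      rw [coeff_single_mul_apply, one_mul, neg_neg, add_neg_cancel_left]
      exact ha
  by_contra hcon
  rw [not_le] at hcon
  set x := (sl u lam (spec z (res (Ker k1) E))).eval s with hx
  set y := (sl u lam (spec z (res (Ker k1) (single (-S) 1 * E)))).eval s with hy
  have hy0 : y ≠ 0 := by
    intro h1
    rw [h1, norm_zero] at hcon
    exact absurd hcon (not_lt.mpr (norm_nonneg _))
  have ht : ‖-(x / y)‖ < 1 := by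
    rw [norm_neg, norm_div, div_lt_one (norm_pos_iff.mpr hy0)]
    exact hcon
  have hne := hMu L (spec z E) hEC (Fin 2) ![lam', k1] (by
    intro i a ha
    have h3 := hcase a (hsupp a ha)
    fin_cases i
    · change 0 ≤ lam' a
      rcases h3 with ⟨_, h4⟩ | ⟨_, h4⟩
      · by_cases h5 : a = 0
        · rw [h5, map_zero]
        · exact (h4 h5).le
      · exact h4
    · change 0 ≤ k1 a
      rcases h3 with ⟨h4, _⟩ | ⟨h4, _⟩ <;> rw [h4]
      exact zero_le_one) (by
    intro a ha h0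
    have h3 := hcase a (hsupp a ha)
    rw [Fin.sum_univ_two]
    change 0 < lam' a + k1 a
    rcases h3 with ⟨h4, h5⟩ | ⟨h4, h5⟩
    · have := h5 h0
      omega
    · omega) u' ![s, -(x / y)] (by
    intro i
    fin_cases i
    · exact hs
    · exact ht)
  apply hne
  rw [hE, map_add, H47.qv_mev_add, map_mul, spec_single, map_one, spec_em, spec_em,
    qs_mev_em k1 lam lam' hl u u' hu, qs_mev_shift k1 S h lam lam' hlS hl u u' hu huS]
  change x + -(x / y) * y = 0
  field_simp
  ring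

theorem sl_cst_mul (u : AddChar L Circle) (lam : L →+ ℤ) (z : Circle) (d : RO O) (F : AO O L)
    (s : ℂ) : (sl u lam (spec z (cst d * F))).eval s =
      evR z d * (sl u lam (spec z F)).eval s := by
  induction F using AddMonoidAlgebra.induction_linear with
  | zero => simp [sl]
  | add f g hf hg =>
    rw [mul_add, map_add, map_add, sl_add, sl_add, Polynomial.eval_add,
      Polynomial.eval_add, hf, hg, mul_add]
  | single a q =>
    rw [cst, single_mul_single, zero_add, spec_single, spec_single, sl_single, sl_single,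
      map_mul (evR z), Polynomial.eval_monomial, Polynomial.eval_monomial]
    ring

/-- `|y| ≤ |x|` gives `|x + w|² ≤ 2 Re (x conj (x + w))` for `|w| ≤ |x|`. -/
theorem re_of_le {x w : ℂ} (hny : ‖w‖ ≤ ‖x‖) :
    ‖x + w‖ ^ 2 ≤ 2 * (x * (starRingEnd ℂ) (x + w)).re := by
  have h20 : ‖w‖ ^ 2 ≤ ‖x‖ ^ 2 := pow_le_pow_left₀ (norm_nonneg _) hny 2
  have h21 : ‖x + w‖ ^ 2 = ‖x‖ ^ 2 + 2 * (x * (starRingEnd ℂ) w).re + ‖w‖ ^ 2 := by
    rw [← Complex.normSq_eq_norm_sq, ← Complex.normSq_eq_norm_sq, ← Complex.normSq_eq_norm_sq,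
      Complex.normSq_add]
    ring
  have h22 : (x * (starRingEnd ℂ) (x + w)).re = ‖x‖ ^ 2 + (x * (starRingEnd ℂ) w).re := by
    rw [map_add, mul_add, Complex.mul_conj, Complex.add_re, Complex.ofReal_re,
      Complex.normSq_eq_norm_sq]
  rw [h21, h22]
  linarith

/-- A nonnegative element is symmetric. -/
theorem sharp_of_nnT (hDe : DensS) (hSh : SharpS) [Module.Free ℤ L] [Module.Finite ℤ L]
    (F : AO O L) (hF : NnT F) : sharp F = F := by
  have h1 : sharp F - F = 0 := by
    apply (hDe O L).2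
    have h2 : {z : Circle | ¬ ∀ u : AddChar L Circle, ev z u (sharp F - F) = 0} = ∅ := by
      rw [Set.eq_empty_iff_forall_notMem]
      intro z hz
      apply hz
      intro u
      rw [map_sub, (hSh O L F).1 z u]
      apply Complex.ext
      · rw [Complex.sub_re, Complex.conj_re, sub_self, Complex.zero_re]
      · rw [Complex.sub_im, Complex.conj_im, (hF z u).1, neg_zero, sub_zero, Complex.zero_im]
    rw [h2]
    exact Set.finite_empty
  exact sub_eq_zero.mp h1

/-- The constant coefficient of a nonnegative element. -/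
theorem nnR_of_nnT (hDe : DensS) (hSh : SharpS) (hEv : EvRS) (hNn : Nn3S) [Module.Free ℤ L]
    [Module.Finite ℤ L] (F : AO O L) (hF : NnT F) : NnR (F.coeff 0) := by
  have hs := sharp_of_nnT hDe hSh F hF
  intro z
  constructor
  · have h1 := congrArg (fun G : AO O L => evR z (G.coeff 0)) hs
    simp only [sharp_coeff', neg_zero] at h1
    rw [(hEv O).2.2.1] at h1
    have h2 := congrArg Complex.im h1
    rw [Complex.conj_im] at h2
    linarith
  · by_cases h0 : spec z F = 0
    · have h1 := congrArg (fun G : CA L => G.coeff 0) h0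
      simp only [spec_coeff] at h1
      rw [h1]
      exact le_refl _
    · have h1 := (hNn L (spec z F) h0 (fun u => hF z u)).1
      rw [spec_coeff] at h1
      exact h1.le

theorem t_ne (hZ : ZfinS) (hNn : Nn3S) [Module.Free ℤ L]
    [Module.Finite ℤ L] (F : AO O L) (hF : NnT F) (hF0 : F ≠ 0) : F.coeff 0 ≠ 0 := by
  obtain ⟨a, ha⟩ : ∃ a, F.coeff a ≠ 0 := by
    by_contra hcon
    push Not at hcon
    exact hF0 (AddMonoidAlgebra.ext (Finsupp.ext hcon))
  obtain ⟨z, hz⟩ : ∃ z : Circle, evR z (F.coeff a) ≠ 0 := by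
    by_contra hcon
    push Not at hcon
    exact ha (evR_zero hZ _ hcon)
  have h0 : spec z F ≠ 0 := by
    intro h1
    have h2 := congrArg (fun G : CA L => G.coeff a) h1
    simp only [spec_coeff] at h2
    exact hz h2
  have h1 := (hNn L (spec z F) h0 (fun u => hF z u)).1
  rw [spec_coeff] at h1
  intro h2
  rw [h2, map_zero, Complex.zero_re] at h1
  exact lt_irrefl _ h1

end Core

section Main

variable {O : Type} [CommRing O] [IsDomain O] [IsPrincipalIdealRing O] [Coef O]
  {P L : Type} [Fintype P] [DecidableEq P] [AddCommGroup L] [Module.Free ℤ L]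
  [Module.Finite ℤ L] {phi : L →+ (P → ℤ)} {D : AO O L} {S : L} {i0 : P} {eta : (RO O)ˣ}
  {h : co phi i0 S = 1} {c : RO O} {n : ℕ} {G : Fin n → AO O (Ker (co phi i0))}

/-- Products of the factors are full and primitive. -/
theorem full_prod (hF : FullS) (hP : PrimS) (lam : Ker (co phi i0) →+ ℤ)
    (hG : ∀ i, FullAt lam (G i)) (hirr : ∀ i, Irreducible (G i)) (hwd : ∀ i, Wdep (G i))
    (s : Finset (Fin n)) : FullAt lam (∏ i ∈ s, G i) ∧ Prim (∏ i ∈ s, G i) := by
  classical
  induction s using Finset.induction_on with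
  | empty =>
    rw [Finset.prod_empty]
    exact ⟨(hF O _ (1 : AO O (Ker (co phi i0))) 1 _).2.2, prim_one⟩
  | insert i s hi ih =>
    rw [Finset.prod_insert hi]
    exact ⟨(hF O _ _ _ _).2.1 (hG i) ih.1,
      (hP O _ _ _).1 ((hP O _ (G i) 1).2.1 (hirr i) (hwd i)) ih.2⟩

/-- Data of a small factor. -/
structure QD (O : Type) [CommRing O] [IsDomain O] [IsPrincipalIdealRing O] [Coef O]
    {P L : Type} [Fintype P] [DecidableEq P] [AddCommGroup L] (phi : L →+ (P → ℤ)) (i0 : P) where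
  /-- the ray -/
  b : Ker (co phi i0)
  /-- the port -/
  j : P
  /-- the value -/
  e : (RO O)ˣ
  /-- the quotient -/
  F : AO O (Ker (co (phK phi (co phi i0)) j))

/-- The properties of the data. -/
def QD.ok (d : QD O phi i0) (D : AO O L) (S : L) (eta : (RO O)ˣ)
    (h : co phi i0 S = 1) (c : RO O) (n : ℕ) (G : Fin n → AO O (Ker (co phi i0))) (l : Fin n) :
    Prop :=
  ∃ (hj : co (phK phi (co phi i0)) d.j d.b = 1)
    (q : AO O (Ker (co (phK phi (co phi i0)) d.j))),
      QC phi D S i0 eta h c n G l d.b d.j d.e hj q ∧ q = cst (c * (G l).coeff 0) * d.F ∧ NnT d.F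

end Main

/-- Row SF_QSG. -/
theorem sf_qsg_st (h1 : SmallS) (h2 : QstS) (hDv : Dv3S) (hNn : Nn3S) (hHp : Hp3S)
    (hGen : GenS) (hE : SlEvalS) (hEv : EvRS) (hSh : SharpS) (hDe : DensS) (hZ : ZfinS)
    (hU : UnitAS) (hFace : FaceS) (hSt : StSpecS) (hMu : MultiS) (hE2 : E2S) (hP : PrimS)
    (hB3 : B3S) (hFull : FullS) : QsgS := by
  classical
  intro O _ _ _ _ P L _ _ _ _ _ phi D S i0 eta h c n G fd hMc m0 v hv hd
  -- the data
  have key : ∀ l : Fin n, ∃ d : QD O phi i0, l ∈ snp phi S i0 G →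
      d.ok D S eta h c n G l := by
    intro l
    by_cases hl : l ∈ snp phi S i0 G
    · have hl' : ¬ 1 < M ((G l).coeff 0) ∧ ¬ Pure phi S i0 (G l) := by
        have h3 := hl
        unfold snp at h3
        exact (Finset.mem_filter.mp h3).2
      obtain ⟨_, _, h3⟩ := h1 O P L phi D S i0 eta h c n G fd l hl'.1
      obtain ⟨b, j, e, hsp⟩ := h3 hl'.2
      have hj : co (phK phi (co phi i0)) j b = 1 := hsp.bj
      obtain ⟨q, hq0, hxe, hrq, _, _⟩ := h2 O P L phi D S i0 eta h c n G fd l b j e hsp hj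
      have hqc : QC phi D S i0 eta h c n G l b j e hj q := ⟨fd, hsp, hq0, hxe, hrq⟩
      obtain ⟨F, hF, hFn⟩ := hDv O P L phi D S i0 eta h c n G l b j e hj q hqc hMc m0 v hv hd
      exact ⟨⟨b, j, e, F⟩, fun _ => ⟨hj, q, hqc, hF, hFn⟩⟩
    · exact ⟨⟨0, i0, 1, 0⟩, fun h3 => absurd h3 hl⟩
  choose d hdok using key
  set Sn := snp phi S i0 G with hSn
  refine ⟨fun l => (d l).F.coeff 0, ?_, ?_⟩
  · intro l hl
    obtain ⟨hj, q, hqc, hqF, hFn⟩ := hdok l hl
    refine ⟨(d l).b, (d l).j, (d l).e, hj, q, (d l).F, hqc, hqF, hFn, rfl, ?_,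
      nnR_of_nnT hDe hSh hEv hNn _ hFn⟩
    apply t_ne hZ hNn _ hFn
    intro h0
    rw [h0, mul_zero] at hqF
    exact hqc.q0 hqF
  -- the induction
  set k : Fin n → Ker (co phi i0) →+ ℤ := fun l => co (phK phi (co phi i0)) (d l).j with hk
  have hb : ∀ l ∈ Sn, k l (d l).b = 1 := fun l hl => (hdok l hl).1
  have hSp : ∀ l ∈ Sn, Spt phi S i0 G l (d l).b (d l).j (d l).e := by
    intro l hl
    obtain ⟨hj, q, hqc, -, -⟩ := hdok l hl
    exact hqc.sp
  have hbin1 : ∀ a ∈ supp D, co phi i0 a = 0 ∨ co phi i0 a = 1 :=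
    fun a ha => fd.cc.dd.bin a ha i0
  have hstar := qs_star hU hEv hZ (co phi i0) S h eta D hbin1 fd.cc.dd.st.1 fd.cc.ray.1
    fd.cc.dd.un
  have hG : ∀ l ∈ Sn, G l = cst ((G l).coeff 0) * pf (d l).b (d l).e := fun l hl => (hSp l hl).eq
  have hG0 : ∀ l ∈ Sn, (G l).coeff 0 ≠ 0 := fun l hl => (hSp l hl).u0.ne_zero
  have hoth : ∀ l ∈ Sn, ∀ i, i ≠ l → ∀ a ∈ supp (G i), k l a = 0 :=
    fun l hl i hi a ha => (hSp l hl).other i hi a ha
  have hXk : ∀ l ∈ Sn, ∀ a ∈ supp (res (Ker (co phi i0)) D), k l a = 0 ∨ k l a = 1 :=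
    fun l _ a ha => fd.cc.dd.bin (a : L) ha (d l).j
  obtain ⟨hSD, hS0, lam, hS, hp⟩ := fd.cc.ray
  have hposV := pos_cl (co phi i0) S h eta D lam hS hp
  have hGf : ∀ i, FullAt (lam.comp (incl (Ker (co phi i0)))) (G i) := fun i =>
    fd.full i _ hposV
  have hUne : ∀ l (hl : l ∈ Sn), cl (k l) (d l).b (hb l hl) (d l).e
      (∏ i ∈ Finset.univ.erase l, G i) ≠ 0 := by
    intro l hl h0
    rw [cl_prod l (d l).b (d l).j (d l).e (hSp l hl) (hb l hl)] at h0
    have h3 := full_U hFull l (d l).b (d l).j (d l).e (hSp l hl) (hb l hl) _ hGf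
    exact h3.1 (by rw [h0]; rfl)
  have hF : ∀ l (hl : l ∈ Sn), cl (k l) (d l).b (hb l hl) (d l).e (res (Ker (co phi i0)) D) =
      cst (c * (G l).coeff 0) * (d l).F *
        cl (k l) (d l).b (hb l hl) (d l).e (∏ i ∈ Finset.univ.erase l, G i) := by
    intro l hl
    obtain ⟨hj, q, hqc, hqF, -⟩ := hdok l hl
    rw [cl_prod l (d l).b (d l).j (d l).e (hSp l hl) (hb l hl), ← hqF]
    exact hqc.xe
  have hFs : ∀ l ∈ Sn, sharp (d l).F = (d l).F := by
    intro l hl
    obtain ⟨hj, q, hqc, hqF, hFn⟩ := hdok l hl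
    exact sharp_of_nnT hDe hSh _ hFn
  obtain ⟨XJ, Z, hXJ, hVJ, -, hJ⟩ := qs_ind hEv hZ (res (Ker (co phi i0)) D)
    (cl (co phi i0) S h eta D) hstar c fd.c0 G fd.eq Sn k (fun l => (d l).b)
    (fun l => (d l).e) hb hXk hG hG0 hoth (fun l => (d l).F) hF hUne hFs Sn
    (Finset.Subset.refl _)
  -- notation
  obtain ⟨g, hg⟩ : ∃ g : RO O, g = c * ∏ l ∈ Sn, (G l).coeff 0 := ⟨_, rfl⟩
  obtain ⟨U, hUd⟩ : ∃ U : AO O (Ker (co phi i0)), U = ∏ i ∈ Snᶜ, G i := ⟨_, rfl⟩
  have hVU : VJ c G Sn = cst g * U := by rw [hg, hUd]; rfl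
  rw [hVU] at hJ hVJ
  have hg0 : g ≠ 0 := by
    rw [hg]
    exact mul_ne_zero fd.c0 (Finset.prod_ne_zero_iff.mpr hG0)
  obtain ⟨T, hT⟩ : ∃ T : AO O (Ker (co phi i0)), T = ∑ l ∈ Sn, em (Ker (k l)) (d l).F :=
    ⟨_, rfl⟩
  have hsT : sharp T = T := by
    rw [hT, map_sum]
    apply Finset.sum_congr rfl
    intro l hl
    rw [sharp_em, hFs l hl]
  rw [← hT] at hJ
  have hqu : XJ * sharp (cst g * U) + sharp XJ * (cst g * U) - (cst g * U) *
      sharp (cst g * U) = (cst g * T) * cst (rsh g) * (U * sharp U) := by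
    have h3 : sharp (cst g * U) = cst (rsh g) * sharp U := by rw [map_mul, sharp_cst]
    rw [h3] at hJ ⊢
    linear_combination hJ
  have hrq : (cst g * T) * cst (rsh g) = sharp (cst g * T) * cst g := by
    rw [map_mul, sharp_cst, hsT]
    ring
  -- full and primitive
  obtain ⟨hUf, hUp⟩ := full_prod hFull hP _ hGf fd.irr fd.wd Snᶜ
  rw [← hUd] at hUf hUp
  have hUst : Stable U := (hFull O _ U 1 _).1 hUf
  have hU0 : ∀ z : Circle, evR z (U.coeff 0) ≠ 0 := hB3 O _ U hUst hUp
  have hD0 : ∀ z : Circle, evR z (D.coeff 0) ≠ 0 := (hE2 O P L phi D fd.cc.dd fd.cc.two).1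
  -- the face
  obtain ⟨kj, hkj⟩ : ∃ kj : L →+ ℤ, kj = ∑ l ∈ Sn, co phi (d l).j := ⟨_, rfl⟩
  have hkj' : ∀ a : L, kj a = ∑ l ∈ Sn, phi a (d l).j := by
    intro a
    rw [hkj, AddMonoidHom.finsetSum_apply]
    rfl
  have hkjS : kj S = 0 := by
    rw [hkj']
    apply Finset.sum_eq_zero
    intro l hl
    exact (Finset.mem_filter.mp (hSp l hl).jO).2
  have hSj : ∀ l ∈ Sn, phi S (d l).j = 0 := fun l hl => (Finset.mem_filter.mp (hSp l hl).jO).2
  have hbinj : ∀ a, D.coeff a ≠ 0 → (kj a = 0 ↔ ∀ l ∈ Sn, phi a (d l).j = 0) := by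
    intro a ha
    rw [hkj', Finset.sum_eq_zero_iff_of_nonneg]
    intro l _
    rcases fd.cc.dd.bin a ha (d l).j with h3 | h3 <;> rw [h3]
    exact zero_le_one
  have hDj : Nn kj D := by
    intro a ha
    rw [hkj']
    apply Finset.sum_nonneg
    intro l _
    rcases fd.cc.dd.bin a (Finsupp.mem_support_iff.mp ha) (d l).j with h3 | h3 <;> rw [h3]
    exact zero_le_one
  have hgp : ∀ a : L, (gpart kj 0 D).coeff a = if kj a = 0 then D.coeff a else 0 := by
    intro a
    change (D.coeff.filter fun a => kj a = 0) a = _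
    rw [Finsupp.filter_apply]
  have hXJe : XJ = res (Ker (co phi i0)) (gpart kj 0 D) := by
    apply AddMonoidAlgebra.ext
    apply Finsupp.ext
    intro a
    rw [res_coeff, hgp]
    by_cases h3 : ∀ l ∈ Sn, k l a = 0
    · rw [(hXJ a).1 h3, res_coeff]
      have h4 : kj (a : L) = 0 := by
        rw [hkj']
        exact Finset.sum_eq_zero (fun l hl => h3 l hl)
      rw [if_pos h4]
    · rw [(hXJ a).2 h3]
      by_cases h4 : D.coeff (a : L) = 0
      · rw [h4, ite_self]
      · rw [if_neg]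
        intro h5
        exact h3 (fun l hl => (hbinj _ h4).mp h5 l hl)
  obtain ⟨YJ, hYJ⟩ : ∃ YJ : AO O (Ker (co phi i0)),
    YJ = res (Ker (co phi i0)) (single (-S) 1 * gpart kj 0 D) := ⟨_, rfl⟩
  have hV := qs_V (co phi i0) S h eta D hbin1
  have hVsum : cst g * U = XJ + cst (eta : RO O) * YJ := by
    apply AddMonoidAlgebra.ext
    apply Finsupp.ext
    intro a
    rw [coeff_add, Finsupp.add_apply, cst_mul_coeff (eta : RO O), hYJ, res_coeff,
      coeff_single_mul_apply, one_mul, neg_neg, hgp, map_add, hkjS, zero_add]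
    by_cases h3 : ∀ l ∈ Sn, k l a = 0
    · have h4 : kj (a : L) = 0 := by
        rw [hkj']
        exact Finset.sum_eq_zero (fun l hl => h3 l hl)
      rw [(hVJ a).1 h3, (hXJ a).1 h3, if_pos h4, hV, coeff_add, Finsupp.add_apply,
        cst_mul_coeff, res_coeff (Ker (co phi i0)) (single (-S) 1 * D),
        coeff_single_mul_apply, one_mul, neg_neg]
    · rw [(hVJ a).2 h3, (hXJ a).2 h3, zero_add]
      by_cases h4 : D.coeff (S + (a : L)) = 0
      · rw [h4, ite_self, mul_zero]
      · rw [if_neg, mul_zero]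
        intro h5
        apply h3
        intro l hl
        have h6 : kj (S + (a : L)) = 0 := by rw [map_add, hkjS, zero_add, h5]
        have h7 := (hbinj _ h4).mp h6 l hl
        rw [map_add, Pi.add_apply, hSj l hl, zero_add] at h7
        exact h7
  -- constant coefficients
  have hX0 : XJ.coeff 0 = D.coeff 0 := by
    rw [(hXJ 0).1 (fun l _ => map_zero _), res_coeff]
    rfl
  have hV0 : g * U.coeff 0 = D.coeff 0 + (eta : RO O) * D.coeff S := by
    have h3 := (hVJ 0).1 (fun l _ => map_zero _)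
    rw [cst_mul_coeff, hV, coeff_add, Finsupp.add_apply, cst_mul_coeff, res_coeff, res_coeff,
      coeff_single_mul_apply, one_mul, neg_neg] at h3
    rw [h3]
    simp
  -- positivity of the supports
  have hXpos : Pos (lam.comp (incl (Ker (co phi i0)))) XJ := by
    intro a ha ha0
    rw [Finsupp.mem_support_iff] at ha
    have h3 : D.coeff (a : L) ≠ 0 := by
      by_cases h4 : ∀ l ∈ Sn, k l a = 0
      · rw [(hXJ a).1 h4, res_coeff] at ha
        exact ha
      · exact absurd ((hXJ a).2 h4) ha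
    apply hp _ h3
    · intro h4
      exact ha0 (Subtype.ext h4)
    · intro h4
      have h5 : co phi i0 (a : L) = 0 := a.2
      rw [h4, h] at h5
      exact one_ne_zero h5
  -- generic functional
  obtain ⟨Q, hQ⟩ : ∃ Q : AO O (Ker (co phi i0)), Q = cst g * T := ⟨_, rfl⟩
  obtain ⟨mu, -, hmu1, hmu2⟩ := hGen (Ker (co phi i0))
    ((XJ.coeff.support ∪ U.coeff.support).erase 0) (insert 0 Q.coeff.support) ⊥
    (lam.comp (incl (Ker (co phi i0))))
    (fun k hk => by rw [(Submodule.mem_bot ℤ).mp hk, map_zero])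
    (fun m a hm hma => by
      rw [Submodule.mem_bot] at hma ⊢
      exact (smul_eq_zero.mp hma).resolve_left hm)
    (fun a ha => by
      rw [Finset.mem_erase, Finset.mem_union] at ha
      rcases ha.2 with h1 | h1
      · exact hXpos a h1 ha.1
      · exact hUf.2.1 a h1 ha.1)
    (fun a _ a' _ haa => sub_eq_zero.mp ((Submodule.mem_bot ℤ).mp haa))
  have hXm : Pos mu XJ := fun a ha ha0 => hmu1 a (Finset.mem_erase.mpr ⟨ha0,
    Finset.mem_union_left _ ha⟩)
  have hUm : Pos mu U := fun a ha ha0 => hmu1 a (Finset.mem_erase.mpr ⟨ha0,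
    Finset.mem_union_right _ ha⟩)
  have hQm : ∀ a ∈ Q.coeff.support, a ≠ 0 → mu a ≠ 0 := by
    intro a ha ha0 h1
    exact ha0 (hmu2 a (Finset.mem_insert_of_mem ha) 0 (Finset.mem_insert_self _ _)
      (by rw [h1, map_zero]))
  have hYm : ∀ a ∈ supp YJ, 0 ≤ mu a := by
    intro a ha
    by_cases ha0 : a = 0
    · rw [ha0, map_zero]
    have h10 := congrArg (fun F : AO O (Ker (co phi i0)) => F.coeff a) hVsum
    simp only [coeff_add, Finsupp.add_apply, cst_mul_coeff] at h10
    by_cases h11 : U.coeff a = 0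
    · have h12 : XJ.coeff a ≠ 0 := by
        intro h13
        rw [h11, h13, mul_zero, zero_add] at h10
        rcases mul_eq_zero.mp h10.symm with h14 | h14
        · exact eta.ne_zero h14
        · exact ha h14
      exact (hXm a (Finsupp.mem_support_iff.mpr h12) ha0).le
    · exact (hUm a (Finsupp.mem_support_iff.mpr h11) ha0).le
  -- the inequality where `g` is not zero
  have hmain : ∀ z : Circle, evR z g ≠ 0 → (∑ l ∈ Sn, (evR z ((d l).F.coeff 0)).re) *
      ‖evR z (D.coeff 0 + (eta : RO O) * D.coeff S)‖ ^ 2 ≤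
      2 * (evR z (D.coeff 0) *
        (starRingEnd ℂ) (evR z (D.coeff 0 + (eta : RO O) * D.coeff S))).re -
        ‖evR z (D.coeff 0 + (eta : RO O) * D.coeff S)‖ ^ 2 := by
    intro z hgz
    rw [← hQ] at hqu hrq
    have hcore := H24qm.core hHp hE hEv hSh XJ U Q g z mu hXm hUm hQm hqu hrq hgz (by
      intro u s hs
      refine ⟨(hSt O _ U).2.2 hUst mu hUm z (hU0 z) u s hs, ?_⟩
      have hle := qs_core hFace hSt hMu (co phi i0) kj S h D hbin1 hDj fd.cc.dd.st mu
        (by rw [← hXJe]; exact hXm) (by rw [← hYJ]; exact hYm) z (hD0 z) u s hs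
      rw [← hXJe, ← hYJ] at hle
      have hsl : evR z g * (sl u mu (spec z U)).eval s = (sl u mu (spec z XJ)).eval s +
          evR z (eta : RO O) * (sl u mu (spec z YJ)).eval s := by
        rw [← sl_cst_mul, ← sl_cst_mul, hVsum, map_add, sl_add, Polynomial.eval_add]
      rw [hsl]
      apply re_of_le
      rw [norm_mul, (hEv O).2.1 z _ eta.isUnit, one_mul]
      exact hle)
    rw [← map_mul, hV0, hX0] at hcore
    have hQ0 : Q.coeff 0 = g * ∑ l ∈ Sn, (d l).F.coeff 0 := by
      rw [hQ, cst_mul_coeff, hT, coeff_sum, Finsupp.finsetSum_apply]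
      congr 1
      apply Finset.sum_congr rfl
      intro l _
      exact em_coeff (Ker (k l)) (d l).F 0
    have hQre : (evR z (Q.coeff 0) * (starRingEnd ℂ) (evR z g)).re =
        ‖evR z g‖ ^ 2 * ∑ l ∈ Sn, (evR z ((d l).F.coeff 0)).re := by
      have h3 : evR z (Q.coeff 0) * (starRingEnd ℂ) (evR z g) =
          ((‖evR z g‖ ^ 2 : ℝ) : ℂ) * ∑ l ∈ Sn, evR z ((d l).F.coeff 0) := by
        rw [hQ0, map_mul, map_sum]
        have h4 : evR z g * (starRingEnd ℂ) (evR z g) = ((‖evR z g‖ ^ 2 : ℝ) : ℂ) := by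
          rw [Complex.mul_conj, Complex.normSq_eq_norm_sq]
        rw [← h4]
        ring
      rw [h3, Complex.re_ofReal_mul, Complex.re_sum]
    rw [hQre] at hcore
    have hgp2 : 0 < ‖evR z g‖ ^ 2 := by
      have := norm_pos_iff.mpr hgz
      positivity
    have h5 : ‖evR z g‖ ^ 2 * ((∑ l ∈ Sn, (evR z ((d l).F.coeff 0)).re) *
        ‖evR z (D.coeff 0 + (eta : RO O) * D.coeff S)‖ ^ 2) ≤
        ‖evR z g‖ ^ 2 * (2 * (evR z (D.coeff 0) *
        (starRingEnd ℂ) (evR z (D.coeff 0 + (eta : RO O) * D.coeff S))).re -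
        ‖evR z (D.coeff 0 + (eta : RO O) * D.coeff S)‖ ^ 2) := by
      linarith
    exact le_of_mul_le_mul_left h5 hgp2
  -- continuity
  have hcont := (hEv O).2.2.2
  refine H96.le_of_dense hZ g hg0 _ _ ?_ ?_ hmain
  · apply Continuous.mul
    · apply continuous_finsetSum
      intro l _
      exact Complex.continuous_re.comp (hcont _)
    · exact (hcont _).norm.pow 2
  · apply Continuous.sub
    · apply Continuous.mul continuous_const
      exact Complex.continuous_re.comp ((hcont _).mul (Complex.continuous_conj.comp (hcont _)))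
    · exact (hcont _).norm.pow 2

end Pool.Agent.B5.H76
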