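import Pool.Agent.Lib.MP_b5021c_nt.IfaceSF
import Pool.Agent.Lib.MP_b5021c_nt.B.H36.Evr

/-!
# Board b5, stage 3, chapter SF, row SF_GAI (helper76): the gain for a Fejér kernel
-/

namespace Pool.Agent.B5.H76

open scoped LaurentPolynomial
open Polynomial

/-! ## Real numbers -/

theorem gai_core {α θ : ℝ} (hα0 : 0 < α) (hα1 : α < 1) (hθ : 2 ≤ θ)
    (h : (1 - α) ^ 2 * (3 + 2 * θ⁻¹ - (1 - θ⁻¹) / (1 + θ⁻¹)) ≤
      2 * α * (θ - 2 + (θ⁻¹) ^ 2 - (1 - θ⁻¹) / (1 + θ⁻¹))) :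
    α⁻¹ + 1 ≤ θ := by
  by_contra hcon
  push Not at hcon
  have hθ0 : 0 < θ := by linarith
  have h1 : α * (θ - 1) < 1 := by
    have := mul_lt_mul_of_pos_left (show θ - 1 < α⁻¹ by linarith) hα0
    rwa [mul_inv_cancel₀ hα0.ne'] at this
  have hQ : (1 - θ⁻¹) / (1 + θ⁻¹) = (θ - 1) / (θ + 1) := by
    have h0 : θ + 1 ≠ 0 := by linarith
    field_simp
  rw [hQ] at h
  obtain ⟨N, hN⟩ : ∃ N : ℝ, N = (θ - 2) * θ ^ 2 * (θ + 1) + (θ + 1) - θ ^ 2 * (θ - 1) := ⟨_, rfl⟩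
  obtain ⟨B, hB⟩ : ∃ B : ℝ, B = θ * (θ ^ 2 + 3 * θ + 1) := ⟨_, rfl⟩
  have hpos : 0 < θ ^ 2 * (θ + 1) := by positivity
  have e1 : (3 + 2 * θ⁻¹ - (θ - 1) / (θ + 1)) * (θ ^ 2 * (θ + 1)) = 2 * B := by
    have h0 : θ + 1 ≠ 0 := by linarith
    rw [hB]
    field_simp
    ring
  have e2 : (θ - 2 + (θ⁻¹) ^ 2 - (θ - 1) / (θ + 1)) * (θ ^ 2 * (θ + 1)) = N := by
    have h0 : θ + 1 ≠ 0 := by linarith
    rw [hN]
    field_simp
  have h2 : (1 - α) ^ 2 * B ≤ α * N := by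
    have h3 := mul_le_mul_of_nonneg_right h hpos.le
    rw [mul_assoc, e1, mul_assoc (2 * α), e2] at h3
    linarith
  have h3 : α * (θ - 2) ^ 2 < (1 - α) ^ 2 * (θ - 1) := by
    have h4 := mul_pos (show 0 < θ - 1 - α by linarith) (show 0 < 1 - α * (θ - 1) by linarith)
    nlinarith [h4]
  have hBpos : 0 < B := by rw [hB]; positivity
  have h4 : α * (θ - 2) ^ 2 * B < (1 - α) ^ 2 * (θ - 1) * B := mul_lt_mul_of_pos_right h3 hBpos
  have h5 : (θ - 1) * ((1 - α) ^ 2 * B) ≤ (θ - 1) * (α * N) :=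
    mul_le_mul_of_nonneg_left h2 (by linarith)
  have h6 : α * ((θ - 2) ^ 2 * B) < α * ((θ - 1) * N) := by nlinarith [h4, h5]
  have h7 : (θ - 2) ^ 2 * B < (θ - 1) * N := lt_of_mul_lt_mul_left h6 hα0.le
  rw [hB, hN] at h7
  have h8 : (θ - 2) ^ 2 * (θ * (θ ^ 2 + 3 * θ + 1)) -
      (θ - 1) * ((θ - 2) * θ ^ 2 * (θ + 1) + (θ + 1) - θ ^ 2 * (θ - 1)) =
      (1 - 2 * (θ - 2)) ^ 2 + 2 * (θ - 2) ^ 2 + 8 * (θ - 2) ^ 3 + 2 * (θ - 2) ^ 4 := by ring
  have h9 : 0 ≤ 8 * (θ - 2) ^ 3 := by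
    have : 0 ≤ θ - 2 := by linarith
    positivity
  have h10 : 0 ≤ (1 - 2 * (θ - 2)) ^ 2 := sq_nonneg _
  have h11 : 0 ≤ 2 * (θ - 2) ^ 2 := by positivity
  have h12 : 0 ≤ 2 * (θ - 2) ^ 4 := by positivity
  linarith

/-- The sum `∑_{j<m} (2 (1 + .. + A^j) - 1)` is at least `m + 2 (m-1) A`. -/
theorem gai_P {A : ℝ} (hA : 0 ≤ A) (m : ℕ) :
    (m + 1 : ℝ) + 2 * m * A ≤
      ∑ j ∈ Finset.range (m + 1), (2 * (∑ k ∈ Finset.range (j + 1), A ^ k) - 1) := by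
  induction m with
  | zero => simp; norm_num
  | succ m ih =>
    rw [Finset.sum_range_succ]
    have h1 : (1 : ℝ) + A ≤ ∑ k ∈ Finset.range (m + 1 + 1), A ^ k := by
      rw [Finset.sum_range_succ', Finset.sum_range_succ']
      have h2 : 0 ≤ ∑ k ∈ Finset.range m, A ^ (k + 1 + 1) :=
        Finset.sum_nonneg (fun _ _ => by positivity)
      simp only [zero_add, pow_one, pow_zero]
      linarith
    push_cast
    linarith

/-! ## The circle -/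

/-- The Fejér identity. -/
theorem fejer {x : ℂ} (hx : ‖x‖ = 1) (m : ℕ) :
    (∑ j ∈ Finset.range m, (2 * (∑ k ∈ Finset.range (j + 1), x ^ k) - 1)).re =
      ‖∑ k ∈ Finset.range m, x ^ k‖ ^ 2 := by
  have hxx : (starRingEnd ℂ) x * x = 1 := by
    rw [mul_comm, Complex.mul_conj, Complex.normSq_eq_norm_sq, hx]; simp
  induction m with
  | zero => simp
  | succ m ih =>
    rw [Finset.sum_range_succ, Complex.add_re, ih]
    have h1 : ∑ k ∈ Finset.range (m + 1), x ^ k =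
        1 + (starRingEnd ℂ) (∑ k ∈ Finset.range m, x ^ k) * x ^ m := by
      rw [map_sum, Finset.sum_mul, Finset.sum_range_succ', pow_zero, add_comm]
      congr 1
      rw [← Finset.sum_range_reflect]
      refine Finset.sum_congr rfl (fun k hk => ?_)
      have hk' : k < m := Finset.mem_range.mp hk
      have h2 : m = k + (m - 1 - k + 1) := by omega
      rw [map_pow]
      calc x ^ (m - 1 - k + 1) = ((starRingEnd ℂ) x * x) ^ k * x ^ (m - 1 - k + 1) := by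
            rw [hxx, one_pow, one_mul]
        _ = (starRingEnd ℂ) x ^ k * x ^ (k + (m - 1 - k + 1)) := by ring
        _ = (starRingEnd ℂ) x ^ k * x ^ m := by rw [← h2]
    have h3 : ‖∑ k ∈ Finset.range (m + 1), x ^ k‖ ^ 2 = ‖∑ k ∈ Finset.range m, x ^ k‖ ^ 2 + 1 +
        2 * ((starRingEnd ℂ) (∑ k ∈ Finset.range m, x ^ k) * x ^ m).re := by
      rw [Finset.sum_range_succ]
      have h4 : ‖x ^ m‖ ^ 2 = 1 := by rw [norm_pow, hx]; simp
      have h5 : ∀ a b : ℂ, ‖a + b‖ ^ 2 = ‖a‖ ^ 2 + ‖b‖ ^ 2 + 2 * ((starRingEnd ℂ) a * b).re := by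
        intro a b
        rw [← Complex.normSq_eq_norm_sq, ← Complex.normSq_eq_norm_sq, ← Complex.normSq_eq_norm_sq,
          Complex.normSq_apply, Complex.normSq_apply, Complex.normSq_apply]
        simp only [Complex.add_re, Complex.add_im, Complex.mul_re, Complex.conj_re, Complex.conj_im]
        ring
      rw [h5, h4]
    rw [h3]
    have h4 := congrArg Complex.re h1
    rw [Complex.add_re, Complex.one_re] at h4
    rw [Complex.sub_re, Complex.one_re]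
    have h5 : (2 * (∑ k ∈ Finset.range (m + 1), x ^ k)).re =
        2 * (∑ k ∈ Finset.range (m + 1), x ^ k).re := by
      rw [Complex.mul_re]; simp
    rw [h5]
    linarith

/-- `|x - α|² |S_m|² = (1-α)² |S_m|² + 2 α (1 - Re x^m)`. -/
theorem fejer_shift {x : ℂ} (hx : ‖x‖ = 1) (m : ℕ) (α : ℝ) :
    ‖x - (α : ℂ)‖ ^ 2 * ‖∑ k ∈ Finset.range m, x ^ k‖ ^ 2 =
      (1 - α) ^ 2 * ‖∑ k ∈ Finset.range m, x ^ k‖ ^ 2 + 2 * α * (1 - (x ^ m).re) := by
  have hn : ∀ y : ℂ, ‖y‖ ^ 2 = y.re * y.re + y.im * y.im := by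
    intro y
    rw [← Complex.normSq_eq_norm_sq, Complex.normSq_apply]
  have h1 : ‖x - (α : ℂ)‖ ^ 2 = (1 - α) ^ 2 + α * ‖1 - x‖ ^ 2 := by
    have h2 := hn x
    rw [hx] at h2
    rw [hn, hn]
    simp only [Complex.sub_re, Complex.sub_im, Complex.ofReal_re, Complex.ofReal_im,
      Complex.one_re, Complex.one_im]
    linear_combination (1 - α) * h2.symm
  have h3 : ‖1 - x‖ ^ 2 * ‖∑ k ∈ Finset.range m, x ^ k‖ ^ 2 = 2 * (1 - (x ^ m).re) := by
    rw [← mul_pow, ← norm_mul, mul_neg_geom_sum]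
    have h2 := hn (x ^ m)
    rw [norm_pow, hx, one_pow, one_pow] at h2
    rw [hn]
    simp only [Complex.sub_re, Complex.sub_im, Complex.one_re, Complex.one_im]
    linear_combination h2.symm
  rw [h1, add_mul, mul_assoc α, h3]
  ring

/-- `∑_{j<m} (2 (1 + .. + (sg z)^j) - 1)`. -/
noncomputable def gR (sg : ℤ) (m : ℕ) : ℂ[X] :=
  ∑ j ∈ Finset.range m, (2 * (∑ k ∈ Finset.range (j + 1), (C (sg : ℂ) * X) ^ k) - 1)

theorem gR_eval (sg : ℤ) (m : ℕ) (z : ℂ) : (gR sg m).eval z =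
    ∑ j ∈ Finset.range m, (2 * (∑ k ∈ Finset.range (j + 1), ((sg : ℂ) * z) ^ k) - 1) := by
  unfold gR
  simp only [eval_finsetSum, eval_sub, eval_mul, eval_pow, eval_C, eval_X, eval_one, eval_ofNat]

theorem gR_eval_real (sg : ℤ) (m : ℕ) (y : ℝ) : (gR sg m).eval (y : ℂ) =
    ((∑ j ∈ Finset.range m, (2 * (∑ k ∈ Finset.range (j + 1), ((sg : ℝ) * y) ^ k) - 1) : ℝ) :
      ℂ) := by
  rw [gR_eval]
  push_cast
  rfl

/-- The values of the Fejér kernel. -/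
theorem fej_val (sg : ℤ) (m : ℕ) (z : Circle) : (evR z (fej sg m)).re =
    ‖∑ k ∈ Finset.range m, ((sg : ℂ) * (z : ℂ)) ^ k‖ ^ 2 := by
  have h1 : evR z (fej sg m) = (∑ k ∈ Finset.range m, ((sg : ℂ) * (z : ℂ)) ^ k) *
      (starRingEnd ℂ) (∑ k ∈ Finset.range m, ((sg : ℂ) * (z : ℂ)) ^ k) := by
    unfold fej
    rw [map_mul, map_sum, map_sum, map_sum]
    congr 1
    · refine Finset.sum_congr rfl (fun k _ => ?_)
      rw [H36.evR_CT, map_pow, eq_intCast, zpow_natCast, mul_pow]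
    · refine Finset.sum_congr rfl (fun k _ => ?_)
      rw [H36.evR_CT, map_pow, eq_intCast, zpow_neg, zpow_natCast, map_pow, map_mul,
        map_intCast, mul_pow, ← Circle.coe_inv_eq_conj, Circle.coe_inv, inv_pow]
  rw [h1, Complex.mul_conj, Complex.normSq_eq_norm_sq, Complex.ofReal_re]

/-- Row SF_GAI. -/
theorem sf_gai_st : CzmS → GaiS := by
  intro hCZM q f T T' s W m sg hLD hC1 hT hqT hT' hf hm hsg hsT hMass
  have hsg2 : (sg : ℝ) * sg = 1 := by rcases hsg with h | h <;> rw [h] <;> norm_num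
  have hsgn : ‖(sg : ℂ)‖ = 1 := by rcases hsg with h | h <;> rw [h] <;> simp
  have hT'0 : T' ≠ 0 := by
    rintro rfl
    simp at hsT
  have habsT' : |T'| = sg * T' := by
    rcases hsg with h | h
    · rw [h] at hsT ⊢
      push_cast at hsT ⊢
      rw [abs_of_pos (by linarith), one_mul]
    · rw [h] at hsT ⊢
      push_cast at hsT ⊢
      rw [abs_of_neg (by linarith)]
      ring
  obtain ⟨α, hα⟩ : ∃ α : ℝ, α = sg * T'⁻¹ := ⟨_, rfl⟩
  have hαT' : α * |T'| = 1 := by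
    rw [habsT', hα]
    have : T'⁻¹ * T' = 1 := inv_mul_cancel₀ hT'0
    linear_combination (sg : ℝ) * sg * this + hsg2
  have hα0 : 0 < α := by
    by_contra h0
    push Not at h0
    have := mul_nonpos_of_nonpos_of_nonneg h0 (abs_nonneg T')
    linarith
  have hα1 : α < 1 := by
    by_contra h0
    push Not at h0
    have := mul_le_mul_of_nonneg_right h0 (abs_nonneg T')
    linarith
  have hTi : T'⁻¹ = sg * α := by
    rw [hα, ← mul_assoc, hsg2, one_mul]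
  have hTi2 : T'⁻¹ ^ 2 = α ^ 2 := by
    rw [hTi, mul_pow, pow_two (sg : ℝ), hsg2, one_mul]
  -- norms on the circle
  have hnz : ∀ z : ℂ, ‖z - ((T'⁻¹ : ℝ) : ℂ)‖ = ‖(sg : ℂ) * z - (α : ℂ)‖ := by
    intro z
    have h1 : (sg : ℂ) * z - (α : ℂ) = (sg : ℂ) * (z - ((T'⁻¹ : ℝ) : ℂ)) := by
      rw [hα]
      push_cast
      ring
    rw [h1, norm_mul, hsgn, one_mul]
  have hMass' : ∀ z : ℂ, ‖z‖ = 1 →
      ‖∑ k ∈ Finset.range m, ((sg : ℂ) * z) ^ k‖ ^ 2 * ‖(cpz (q + X * f)).eval z‖ ^ 2 ≤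
      ((cpz (q - X * f)).eval z * (starRingEnd ℂ) ((cpz (q + X * f)).eval z)).re := by
    intro z hz
    have h1 := hMass ⟨z, mem_sphere_zero_iff_norm.mpr hz⟩
    rw [fej_val] at h1
    exact h1
  -- first application: the coefficient at zero
  obtain ⟨r, hr⟩ : ∃ r : ℂ[X], r = C (((1 - α) ^ 2 : ℝ) : ℂ) * gR sg m +
    C ((2 * α : ℝ) : ℂ) * (1 - (C (sg : ℂ) * X) ^ m) := ⟨_, rfl⟩
  have hr_eval : ∀ z : ℂ, r.eval z = (((1 - α) ^ 2 : ℝ) : ℂ) * (gR sg m).eval z +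
      ((2 * α : ℝ) : ℂ) * (1 - ((sg : ℂ) * z) ^ m) := by
    intro z
    rw [hr]
    simp only [eval_add, eval_sub, eval_mul, eval_pow, eval_C, eval_X, eval_one]
  have hr_real : ∀ y : ℝ, (r.eval (y : ℂ)).re = (1 - α) ^ 2 *
      (∑ j ∈ Finset.range m, (2 * (∑ k ∈ Finset.range (j + 1), ((sg : ℝ) * y) ^ k) - 1)) +
      2 * α * (1 - ((sg : ℝ) * y) ^ m) := by
    intro y
    rw [hr_eval, gR_eval_real]
    have h1 : (1 - ((sg : ℂ) * (y : ℂ)) ^ m) = ((1 - ((sg : ℝ) * y) ^ m : ℝ) : ℂ) := by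
      push_cast
      rfl
    rw [h1, ← Complex.ofReal_mul, ← Complex.ofReal_mul, ← Complex.ofReal_add, Complex.ofReal_re]
  have hr0 : (r.coeff 0).re = (1 - α) ^ 2 * m + 2 * α := by
    have h1 := hr_real 0
    rw [Complex.ofReal_zero] at h1
    rw [coeff_zero_eq_eval_zero, h1, mul_zero, zero_pow (by omega)]
    have h2 : ∀ j : ℕ, (∑ k ∈ Finset.range (j + 1), (0 : ℝ) ^ k) = 1 := by
      intro j
      rw [Finset.sum_range_succ']
      simp
    simp only [h2]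
    rw [Finset.sum_const, Finset.card_range, nsmul_eq_mul]
    ring
  have hcirc : ∀ z : ℂ, ‖z‖ = 1 → (r.eval z).re * ‖(cpz (q + X * f)).eval z‖ ^ 2 ≤
      ‖z - ((T'⁻¹ : ℝ) : ℂ)‖ ^ 2 *
      ((cpz (q - X * f)).eval z * (starRingEnd ℂ) ((cpz (q + X * f)).eval z)).re := by
    intro z hz
    have hx : ‖(sg : ℂ) * z‖ = 1 := by rw [norm_mul, hsgn, hz, one_mul]
    have h1 : (r.eval z).re = ‖z - ((T'⁻¹ : ℝ) : ℂ)‖ ^ 2 *
        ‖∑ k ∈ Finset.range m, ((sg : ℂ) * z) ^ k‖ ^ 2 := by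
      rw [hnz z, fejer_shift hx, hr_eval, gR_eval, Complex.add_re, Complex.re_ofReal_mul,
        Complex.re_ofReal_mul, fejer hx, Complex.sub_re, Complex.one_re]
    rw [h1, mul_assoc]
    exact mul_le_mul_of_nonneg_left (hMass' z hz) (by positivity)
  have hT1 : 1 < |T| := by linarith
  obtain ⟨hi, hii⟩ := hCZM q f T T' s W r hLD hC1 hT1 hqT hcirc
  -- the sign
  obtain ⟨u, hu⟩ : ∃ u : ℤ, u = sg * (f.coeff 0 * q.coeff 0) := ⟨_, rfl⟩
  have hfq : T'⁻¹ * ((f.coeff 0 * q.coeff 0 : ℤ) : ℝ) = α * u := by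
    rw [hTi, hu]
    push_cast
    ring
  have hu1 : u ≤ 1 := by
    have h1 : |u| ≤ 1 := by
      rw [hu, abs_mul, abs_mul, hLD.q0, mul_one]
      have h2 : |sg| = 1 := by rcases hsg with h | h <;> rw [h] <;> simp
      rw [h2, one_mul]
      exact hf
    exact (abs_le.mp h1).2
  have hm' : (2 : ℝ) ≤ m := by exact_mod_cast hm
  have hpos1 : 0 < (1 - α) ^ 2 := by
    have : 0 < 1 - α := by linarith
    positivity
  have hu2 : (u : ℝ) = 1 := by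
    rw [hr0, hTi2] at hi
    have h1 : (1 - α) ^ 2 * (m - 1) ≤ 2 * (α * u) := by
      rw [← hfq]
      nlinarith [hi]
    have h2 : 0 < (1 - α) ^ 2 * ((m : ℝ) - 1) := mul_pos hpos1 (by linarith)
    have h3 : 0 < α * u := by linarith
    have h4 : (0 : ℝ) < u := (mul_pos_iff_of_pos_left hα0).mp h3
    have h5 : 0 < u := by exact_mod_cast h4
    have h6 : u = 1 := by omega
    rw [h6]
    norm_num
  rw [hu2, mul_one] at hfq
  -- the sign of T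
  have hA1 : |T⁻¹| < 1 := by
    rw [abs_inv]
    exact inv_lt_one_of_one_lt₀ hT1
  have hA0 : 0 ≤ |T⁻¹| := abs_nonneg _
  have hQ0 : 0 ≤ (1 - |T⁻¹|) / (1 + |T⁻¹|) := div_nonneg (by linarith) (by linarith)
  obtain ⟨-, hzero⟩ := hCZM q f T T' s W 0 hLD hC1 hT1 hqT (by
    intro z hz
    rw [eval_zero, Complex.zero_re, zero_mul]
    refine mul_nonneg (by positivity) (le_trans ?_ (hMass' z hz))
    positivity)
  rw [eval_zero, coeff_zero, Complex.zero_re, zero_add, sub_zero, hTi2] at hzero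
  have hsT2 : 0 < T'⁻¹ * T := by
    have h1 : 0 ≤ (1 - |T⁻¹|) / (1 + |T⁻¹|) *
        (1 + α ^ 2 + 2 * T'⁻¹ * ((f.coeff 0 * q.coeff 0 : ℤ) : ℝ)) := by
      refine mul_nonneg hQ0 ?_
      rw [mul_assoc, hfq]
      positivity
    nlinarith [hzero, h1, sq_nonneg α]
  have hsT3 : 0 < sg * T := by
    rw [hTi] at hsT2
    have h1 : (sg : ℝ) * α * T = α * (sg * T) := by ring
    rw [h1] at hsT2
    exact (mul_pos_iff_of_pos_left hα0).mp hsT2
  have habsT : |T| = sg * T := by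
    rcases hsg with h | h
    · rw [h] at hsT3 ⊢
      push_cast at hsT3 ⊢
      rw [abs_of_pos (by linarith), one_mul]
    · rw [h] at hsT3 ⊢
      push_cast at hsT3 ⊢
      rw [abs_of_neg (by linarith)]
      ring
  obtain ⟨θ, hθ⟩ : ∃ θ : ℝ, θ = |T| := ⟨_, rfl⟩
  have hθ2 : 2 ≤ θ := by rw [hθ]; exact hT
  have hTT : T'⁻¹ * T = α * θ := by
    rw [hTi, hθ, habsT]
    ring
  have hAT : |T⁻¹| = θ⁻¹ := by rw [abs_inv, hθ]
  have hsA : (sg : ℝ) * T⁻¹ = θ⁻¹ := by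
    rw [hθ, habsT, mul_inv]
    congr 1
    rcases hsg with h | h <;> rw [h] <;> norm_num
  obtain ⟨A, hA⟩ : ∃ A : ℝ, A = θ⁻¹ := ⟨_, rfl⟩
  have hA0' : 0 ≤ A := by rw [hA, ← hAT]; exact hA0
  have hA1' : A < 1 := by rw [hA, ← hAT]; exact hA1
  rw [hr_real, hsA, hAT, hr0, hTi2, mul_assoc 2 T'⁻¹ T, hTT, mul_assoc 2 T'⁻¹, hfq, ← hA] at hii
  obtain ⟨m', rfl⟩ : ∃ m' : ℕ, m = m' + 1 := ⟨m - 1, by omega⟩
  have hP := gai_P hA0' m'
  have hAm : A ^ (m' + 1) ≤ A ^ 2 := pow_le_pow_of_le_one hA0' hA1'.le hm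
  obtain ⟨P, hPdef⟩ : ∃ P : ℝ, P =
    ∑ j ∈ Finset.range (m' + 1), (2 * (∑ k ∈ Finset.range (j + 1), A ^ k) - 1) := ⟨_, rfl⟩
  rw [← hPdef] at hii hP
  obtain ⟨Q, hQ⟩ : ∃ Q : ℝ, Q = (1 - A) / (1 + A) := ⟨_, rfl⟩
  rw [← hQ] at hii
  have hQ1 : Q ≤ 1 := by
    rw [hQ, div_le_one (by linarith)]
    linarith
  have hm1 : (1 : ℝ) ≤ m' := by
    have : 1 ≤ m' := by omega
    exact_mod_cast this
  push_cast at hii hm'
  have hstar : (1 - α) ^ 2 * (P + 1 - m' * Q) ≤ 2 * α * (θ - 2 + A ^ (m' + 1) - Q) := by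
    nlinarith [hii]
  have hfin : (1 - α) ^ 2 * (3 + 2 * A - Q) ≤ 2 * α * (θ - 2 + A ^ 2 - Q) := by
    have h1 : 3 + 2 * A - Q ≤ P + 1 - m' * Q := by
      have h2 : 0 ≤ (m' - 1 : ℝ) * (1 + 2 * A - Q) :=
        mul_nonneg (by linarith) (by linarith)
      nlinarith [h2, hP]
    have h3 := mul_le_mul_of_nonneg_left h1 hpos1.le
    have h4 : 2 * α * (θ - 2 + A ^ (m' + 1) - Q) ≤ 2 * α * (θ - 2 + A ^ 2 - Q) :=
      mul_le_mul_of_nonneg_left (by linarith) (by linarith)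
    linarith
  rw [hQ, hA] at hfin
  have h := gai_core hα0 hα1 hθ2 hfin
  have hinv : α⁻¹ = |T'| := inv_eq_of_mul_eq_one_right hαT'
  rw [hinv, hθ] at h
  exact h

end Pool.Agent.B5.H76
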