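import Pool.Agent.Lib.MP_b5021c_nt.IfaceSF
import Pool.Agent.Lib.MP_b5021c_nt.B.H71.I2c

/-!
# Board b5, stage 3, chapter SF, row SF_QSG (helper76), algebra

The induction over the small non-pure factors: `X_J V_J^# + X_J^# V_J = (1 + ∑ T_l) V_J V_J^#`.
-/

namespace Pool.Agent.B5.H76

open scoped LaurentPolynomial
open AddMonoidAlgebra Pool.Agent.B5.H71

set_option linter.unusedSectionVars false

section Star

variable {O : Type} [CommRing O] [IsDomain O] [IsPrincipalIdealRing O] [Coef O] {L : Type}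
  [AddCommGroup L]

theorem sharp_cst (d : RO O) : sharp (cst d : AO O L) = cst (rsh d) := by
  rw [cst, sharp_single, neg_zero]
  rfl

theorem cst_ne {d : RO O} (hd : d ≠ 0) : (cst d : AO O L) ≠ 0 := by
  intro h
  have h1 := congrArg (fun F : AO O L => F.coeff 0) h
  simp only [cst, coeff_single, Finsupp.single_eq_same] at h1
  exact hd h1

/-- The closed element is the sum of the two parts. -/
theorem qs_V (k : L →+ ℤ) (S : L) (h : k S = 1) (eta : (RO O)ˣ) (D : AO O L)
    (hD : ∀ a ∈ supp D, k a = 0 ∨ k a = 1) :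
    cl k S h eta D = res (Ker k) D + cst (eta : RO O) * res (Ker k) (single (-S) 1 * D) := by
  have hdec := decomp k S h D hD
  conv_lhs => rw [hdec]
  rw [map_add, map_mul, cl_em, cl_em, cl_single, prj_self, h, zpow_one, one_mul]
  rfl

/-- Unitarity: `X V^# + X^# V = V V^#`. -/
theorem qs_star (hU : UnitAS) (hE : EvRS) (hZ : ZfinS) [Module.Free ℤ L] [Module.Finite ℤ L]
    (k : L →+ ℤ) (S : L) (h : k S = 1) (eta : (RO O)ˣ)
    (D : AO O L) (hD : ∀ a ∈ supp D, k a = 0 ∨ k a = 1) (h0 : D.coeff 0 ≠ 0)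
    (hS : D.coeff S ≠ 0) (hun : Unitary D) :
    res (Ker k) D * sharp (cl k S h eta D) + sharp (res (Ker k) D) * cl k S h eta D =
      cl k S h eta D * sharp (cl k S h eta D) := by
  have hVV := qs_V k S h eta D hD
  have hdec := decomp k S h D hD
  generalize res (Ker k) D = X at hVV hdec ⊢
  generalize res (Ker k) (single (-S) 1 * D) = Y at hVV hdec
  obtain ⟨m, u, hX', hY'⟩ := pair hU hE hZ k S h D X Y hdec hD h0 hS hun
  have hee : (cst ((eta⁻¹ : (RO O)ˣ) : RO O) : AO O (Ker k)) * cst (eta : RO O) = 1 := by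
    rw [← cst_mul, Units.inv_mul, cst_one]
  have hVs : sharp (X + cst (eta : RO O) * Y) =
      cst ((eta⁻¹ : (RO O)ˣ) : RO O) * single m u * (X + cst (eta : RO O) * Y) := by
    rw [map_add, map_mul, hX', hY', sharp_cst, rsh_unit hE hZ]
    linear_combination (-(Y * single m u)) * hee
  rw [hVV, hVs, hX']
  linear_combination (-(Y * single m u * (X + cst (eta : RO O) * Y))) * hee

end Star

section Ind

variable {O : Type} [CommRing O] [IsDomain O] [IsPrincipalIdealRing O] [Coef O] {K : Type}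
  [AddCommGroup K] [Module.Free ℤ K] [Module.Finite ℤ K] {n : ℕ}

/-- The product without the factors `1 - x_l`. -/
noncomputable def VJ (c : RO O) (G : Fin n → AO O K) (J : Finset (Fin n)) : AO O K :=
  cst (c * ∏ l ∈ J, (G l).coeff 0) * ∏ i ∈ Jᶜ, G i

/-- The factor `1 - x_l`. -/
noncomputable def pf (b : K) (e : (RO O)ˣ) : AO O K := 1 - single b ((e⁻¹ : (RO O)ˣ) : RO O)

theorem VJ_insert (c : RO O) (G : Fin n → AO O K) (J : Finset (Fin n)) (k : Fin n) (hk : k ∉ J)
    (b : K) (e : (RO O)ˣ) (hG : G k = cst ((G k).coeff 0) * pf b e) :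
    VJ c G J = pf b e * VJ c G (insert k J) := by
  classical
  unfold VJ
  rw [Finset.prod_insert hk, ← Finset.mul_prod_erase Jᶜ G (Finset.mem_compl.mpr hk),
    ← Finset.compl_insert]
  have h1 : (cst (c * ((G k).coeff 0 * ∏ l ∈ J, (G l).coeff 0)) : AO O K) =
      cst (c * ∏ l ∈ J, (G l).coeff 0) * cst ((G k).coeff 0) := by
    rw [← cst_mul]
    congr 1
    ring
  rw [h1]
  conv_lhs => rw [hG]
  ring

/-- The product over `i ≠ k` in terms of `V_(J+k)`. -/
theorem prod_erase_eq (c : RO O) (G : Fin n → AO O K) (J : Finset (Fin n)) (k : Fin n)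
    (hk : k ∉ J) (b : Fin n → K) (e : Fin n → (RO O)ˣ)
    (hG : ∀ l ∈ J, G l = cst ((G l).coeff 0) * pf (b l) (e l)) :
    cst (c * (G k).coeff 0) * ∏ i ∈ Finset.univ.erase k, G i =
      (∏ l ∈ J, pf (b l) (e l)) * VJ c G (insert k J) := by
  classical
  have h1 : (Finset.univ.erase k : Finset (Fin n)) = J ∪ (insert k J)ᶜ := by
    ext i
    rw [Finset.mem_erase, Finset.mem_union, Finset.mem_compl, Finset.mem_insert]
    constructor
    · rintro ⟨h2, -⟩
      by_cases h3 : i ∈ J
      · exact Or.inl h3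
      · right
        rintro (h4 | h4)
        · exact h2 h4
        · exact h3 h4
    · rintro (h2 | h2)
      · refine ⟨?_, Finset.mem_univ _⟩
        rintro rfl
        exact hk h2
      · refine ⟨fun h3 => h2 (Or.inl h3), Finset.mem_univ _⟩
  have h2 : Disjoint J (insert k J)ᶜ := by
    rw [Finset.disjoint_left]
    intro a ha ha'
    rw [Finset.mem_compl] at ha'
    exact ha' (Finset.mem_insert_of_mem ha)
  have h3 : ∏ i ∈ J, G i = cst (∏ l ∈ J, (G l).coeff 0) * ∏ l ∈ J, pf (b l) (e l) := by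
    have h4 : ∀ s : Finset (Fin n), s ⊆ J → ∏ i ∈ s, G i =
        cst (∏ l ∈ s, (G l).coeff 0) * ∏ l ∈ s, pf (b l) (e l) := by
      intro s
      induction s using Finset.induction_on with
      | empty =>
        intro _
        rw [Finset.prod_empty, Finset.prod_empty, Finset.prod_empty, cst_one, one_mul]
      | insert i s hi ih =>
        intro hs
        rw [Finset.prod_insert hi, Finset.prod_insert hi, Finset.prod_insert hi,
          ih (fun a ha => hs (Finset.mem_insert_of_mem ha)), cst_mul]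
        conv_lhs => rw [hG i (hs (Finset.mem_insert_self _ _))]
        ring
    exact h4 J (Finset.Subset.refl _)
  rw [h1, Finset.prod_union h2, h3]
  unfold VJ
  rw [Finset.prod_insert hk]
  have h5 : (cst (c * ((G k).coeff 0 * ∏ l ∈ J, (G l).coeff 0)) : AO O K) =
      cst (c * (G k).coeff 0) * cst (∏ l ∈ J, (G l).coeff 0) := by
    rw [← cst_mul]
    congr 1
    ring
  rw [h5]
  ring

/-- `V_(J+k)` has no port `k`. -/
theorem VJ_em (c : RO O) (G : Fin n → AO O K) (J : Finset (Fin n)) (k : Fin n) (f : K →+ ℤ)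
    (hoth : ∀ i, i ≠ k → ∀ a ∈ supp (G i), f a = 0) :
    ∃ W : AO O (Ker f), VJ c G (insert k J) = em (Ker f) W := by
  classical
  refine ⟨cst (c * ∏ l ∈ insert k J, (G l).coeff 0) * ∏ i ∈ (insert k J)ᶜ, res (Ker f) (G i), ?_⟩
  unfold VJ
  rw [map_mul, em_cst, map_prod]
  congr 1
  apply Finset.prod_congr rfl
  intro i hi
  rw [em_res]
  apply hoth
  rintro rfl
  rw [Finset.mem_compl] at hi
  exact hi (Finset.mem_insert_self _ _)

/-- A multi-affine element in terms of its part without the port and its value at `x = 1`. -/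
theorem affine_split (f : K →+ ℤ) (b : K) (hb : f b = 1) (e : (RO O)ˣ) (X : AO O K)
    (hX : ∀ a ∈ supp X, f a = 0 ∨ f a = 1) :
    X = pf b e * em (Ker f) (res (Ker f) X) +
      single b ((e⁻¹ : (RO O)ˣ) : RO O) * em (Ker f) (cl f b hb e X) := by
  have h1 := decomp f b hb X hX
  have h2 := qs_V f b hb e X hX
  have h3 : single b ((e⁻¹ : (RO O)ˣ) : RO O) * em (Ker f) (cst (e : RO O)) =
      (single b 1 : AO O K) := by
    rw [em_cst, cst, single_mul_single, add_zero, Units.inv_mul]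
  rw [h2, map_add, map_mul]
  conv_lhs => rw [h1]
  unfold pf
  linear_combination (-(em (Ker f) (res (Ker f) (single (-b) 1 * X)))) * h3

theorem sharp_pf (hE : EvRS) (hZ : ZfinS) (b : K) (e : (RO O)ˣ) :
    sharp (pf b e) = 1 - single (-b) (e : RO O) := by
  unfold pf
  rw [map_sub, map_one, sharp_single, rsh_unit hE hZ, inv_inv]

theorem single_inv (b : K) (e : (RO O)ˣ) :
    (single b ((e⁻¹ : (RO O)ˣ) : RO O) : AO O K) * single (-b) (e : RO O) = 1 := by
  rw [single_mul_single, add_neg_cancel, Units.inv_mul]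
  rfl

theorem sharp_x (hE : EvRS) (hZ : ZfinS) (b : K) (e : (RO O)ˣ) :
    sharp (single b ((e⁻¹ : (RO O)ˣ) : RO O) : AO O K) = single (-b) (e : RO O) := by
  rw [sharp_single, rsh_unit hE hZ, inv_inv]

theorem pf_ne (b : K) (hb : b ≠ 0) (e : (RO O)ˣ) : (pf b e : AO O K) ≠ 0 := by
  intro h1
  have h2 : (pf b e : AO O K).coeff 0 = 1 := by
    unfold pf
    rw [coeff_sub, Finsupp.sub_apply, coeff_single, Finsupp.single_eq_of_ne (Ne.symm hb),
      sub_zero]
    exact coeff_one_zero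
  rw [h1] at h2
  exact zero_ne_one h2

/-- THE INDUCTION. -/
theorem qs_ind (hE : EvRS) (hZ : ZfinS) (X V : AO O K)
    (hst : X * sharp V + sharp X * V = V * sharp V)
    (c : RO O) (hc : c ≠ 0) (G : Fin n → AO O K) (hV : V = cst c * ∏ i, G i)
    (Sn : Finset (Fin n)) (k : Fin n → K →+ ℤ) (b : Fin n → K) (e : Fin n → (RO O)ˣ)
    (hb : ∀ l ∈ Sn, k l (b l) = 1)
    (hXk : ∀ l ∈ Sn, ∀ a ∈ supp X, k l a = 0 ∨ k l a = 1)
    (hG : ∀ l ∈ Sn, G l = cst ((G l).coeff 0) * pf (b l) (e l))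
    (hG0 : ∀ l ∈ Sn, (G l).coeff 0 ≠ 0)
    (hoth : ∀ l ∈ Sn, ∀ i, i ≠ l → ∀ a ∈ supp (G i), k l a = 0)
    (F : ∀ l : Fin n, AO O (Ker (k l)))
    (hF : ∀ l (hl : l ∈ Sn), cl (k l) (b l) (hb l hl) (e l) X =
      cst (c * (G l).coeff 0) * F l *
        cl (k l) (b l) (hb l hl) (e l) (∏ i ∈ Finset.univ.erase l, G i))
    (hU : ∀ l (hl : l ∈ Sn), cl (k l) (b l) (hb l hl) (e l)
      (∏ i ∈ Finset.univ.erase l, G i) ≠ 0)
    (hFs : ∀ l ∈ Sn, sharp (F l) = F l) (J : Finset (Fin n)) (hJ : J ⊆ Sn) :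
    ∃ Xj Z : AO O K,
      (∀ a, ((∀ l ∈ J, k l a = 0) → Xj.coeff a = X.coeff a) ∧
        (¬ (∀ l ∈ J, k l a = 0) → Xj.coeff a = 0)) ∧
      (∀ a, ((∀ l ∈ J, k l a = 0) → (VJ c G J).coeff a = V.coeff a) ∧
        (¬ (∀ l ∈ J, k l a = 0) → (VJ c G J).coeff a = 0)) ∧
      X = (∏ l ∈ J, pf (b l) (e l)) * Xj + Z * VJ c G J ∧
      Xj * sharp (VJ c G J) + sharp Xj * VJ c G J =
        (1 + ∑ l ∈ J, em (Ker (k l)) (F l)) * (VJ c G J * sharp (VJ c G J)) := by
  classical
  induction J using Finset.induction_on with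
  | empty =>
    have hV0 : VJ c G ∅ = V := by
      unfold VJ
      rw [Finset.prod_empty, mul_one, Finset.compl_empty, hV]
    refine ⟨X, 0, ?_, ?_, ?_, ?_⟩
    · intro a
      refine ⟨fun _ => rfl, fun h => ?_⟩
      exact absurd (fun l hl => absurd hl (Finset.notMem_empty l)) h
    · intro a
      rw [hV0]
      refine ⟨fun _ => rfl, fun h => ?_⟩
      exact absurd (fun l hl => absurd hl (Finset.notMem_empty l)) h
    · rw [Finset.prod_empty, one_mul, zero_mul, add_zero]
    · rw [hV0, Finset.sum_empty, add_zero, one_mul]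
      exact hst
  | insert m J hm ih =>
    obtain ⟨Xj, Z, hXj, hVj, hXe, hJe⟩ := ih (fun l hl => hJ (Finset.mem_insert_of_mem hl))
    have hmS : m ∈ Sn := hJ (Finset.mem_insert_self _ _)
    have hbm := hb m hmS
    have hins := VJ_insert c G J m hm (b m) (e m) (hG m hmS)
    obtain ⟨W, hW⟩ := VJ_em c G J m (k m) (hoth m hmS)
    -- the value at `x_m = 1`
    have hclP : cl (k m) (b m) hbm (e m) (pf (b m) (e m)) = 0 := cl_factor _ _ _ _
    have hclX : cl (k m) (b m) hbm (e m) X =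
        cl (k m) (b m) hbm (e m) (∏ l ∈ J, pf (b l) (e l)) * cl (k m) (b m) hbm (e m) Xj := by
      conv_lhs => rw [hXe]
      rw [map_add, map_mul, map_mul, hins, map_mul, hclP, zero_mul, mul_zero, add_zero]
    have hpe := prod_erase_eq c G J m hm b e (fun l hl => hG l (hJ (Finset.mem_insert_of_mem hl)))
    have hclE := congrArg (cl (k m) (b m) hbm (e m)) hpe
    rw [map_mul, map_mul, cl_cst, hW, cl_em] at hclE
    have hPne : cl (k m) (b m) hbm (e m) (∏ l ∈ J, pf (b l) (e l)) ≠ 0 := by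
      intro h0
      rw [h0, zero_mul] at hclE
      have h1 : (cst (c * (G m).coeff 0) : AO O (Ker (k m))) ≠ 0 :=
        cst_ne (mul_ne_zero hc (hG0 m hmS))
      exact (mul_ne_zero h1 (hU m hmS)) hclE
    have hclj : cl (k m) (b m) hbm (e m) Xj = F m * W := by
      apply mul_left_cancel₀ hPne
      rw [← hclX, hF m hmS]
      linear_combination (F m) * hclE
    have hXj01 : ∀ a ∈ supp Xj, k m a = 0 ∨ k m a = 1 := by
      intro a ha
      apply hXk m hmS a
      by_cases h1 : ∀ l ∈ J, k l a = 0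
      · change X.coeff a ≠ 0
        rw [← (hXj a).1 h1]
        exact ha
      · exact absurd ((hXj a).2 h1) ha
    have hsplit := affine_split (k m) (b m) hbm (e m) Xj hXj01
    rw [hclj, map_mul, ← hW] at hsplit
    obtain ⟨X', hX'⟩ : ∃ X' : AO O K, X' = em (Ker (k m)) (res (Ker (k m)) Xj) := ⟨_, rfl⟩
    obtain ⟨T, hT⟩ : ∃ T : AO O K, T = em (Ker (k m)) (F m) := ⟨_, rfl⟩
    obtain ⟨V', hV'⟩ : ∃ V' : AO O K, V' = VJ c G (insert m J) := ⟨_, rfl⟩
    obtain ⟨x, hx⟩ : ∃ x : AO O K, x = single (b m) (((e m)⁻¹ : (RO O)ˣ) : RO O) := ⟨_, rfl⟩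
    obtain ⟨y, hy⟩ : ∃ y : AO O K, y = single (-(b m)) ((e m : (RO O)ˣ) : RO O) := ⟨_, rfl⟩
    have hpx : (pf (b m) (e m) : AO O K) = 1 - x := by rw [hx]; rfl
    have hxy : x * y = 1 := by rw [hx, hy]; exact single_inv (b m) (e m)
    have hsx : sharp x = y := by rw [hx, hy]; exact sharp_x hE hZ (b m) (e m)
    have hsT : sharp T = T := by rw [hT, sharp_em, hFs m hmS]
    rw [← hX', ← hT, ← hV', ← hx, hpx] at hsplit
    rw [← hV', hpx] at hins
    have hall : ∀ a : K, (∀ l ∈ insert m J, k l a = 0) ↔ (k m a = 0 ∧ ∀ l ∈ J, k l a = 0) := by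
      intro a
      constructor
      · intro h1
        exact ⟨h1 m (Finset.mem_insert_self _ _), fun l hl => h1 l (Finset.mem_insert_of_mem hl)⟩
      · rintro ⟨h1, h2⟩ l hl
        rcases Finset.mem_insert.mp hl with h3 | h3
        · rw [h3]; exact h1
        · exact h2 l h3
    have hXc : ∀ a, k m a = 0 → X'.coeff a = Xj.coeff a := by
      intro a ha
      have h1 := em_coeff (Ker (k m)) (res (Ker (k m)) Xj) ⟨a, ha⟩
      rw [← hX', res_coeff] at h1
      exact h1
    have hXc' : ∀ a, k m a ≠ 0 → X'.coeff a = 0 := by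
      intro a ha
      rw [hX']
      exact em_coeff_not _ _ _ ha
    have hVc' : ∀ a, k m a ≠ 0 → V'.coeff a = 0 := by
      intro a ha
      rw [hV', hW]
      exact em_coeff_not _ _ _ ha
    have hVc : ∀ a, k m a = 0 → V'.coeff a = (VJ c G J).coeff a := by
      intro a ha
      have h5 : V'.coeff (-(b m) + a) = 0 := by
        apply hVc'
        rw [map_add, map_neg, hbm, ha]
        norm_num
      rw [hins, sub_mul, one_mul, coeff_sub, Finsupp.sub_apply, hx, coeff_single_mul_apply,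
        h5, mul_zero, sub_zero]
    refine ⟨X', (∏ l ∈ J, pf (b l) (e l)) * (x * T) + Z * (1 - x), ?_, ?_, ?_, ?_⟩
    · intro a
      rw [hall]
      by_cases h1 : k m a = 0
      · rw [hXc a h1]
        refine ⟨fun h2 => (hXj a).1 h2.2, fun h2 => (hXj a).2 (fun h3 => h2 ⟨h1, h3⟩)⟩
      · rw [hXc' a h1]
        exact ⟨fun h2 => absurd h2.1 h1, fun _ => rfl⟩
    · intro a
      rw [hall, ← hV']
      by_cases h1 : k m a = 0
      · rw [hVc a h1]
        refine ⟨fun h2 => (hVj a).1 h2.2, fun h2 => (hVj a).2 (fun h3 => h2 ⟨h1, h3⟩)⟩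
      · rw [hVc' a h1]
        exact ⟨fun h2 => absurd h2.1 h1, fun _ => rfl⟩
    · rw [Finset.prod_insert hm, ← hV', hpx]
      rw [hXe, hins]
      conv_lhs => rw [hsplit]
      ring
    · rw [Finset.sum_insert hm, ← hV', ← hT]
      have hbm0 : b m ≠ 0 := by
        intro h1
        rw [h1, map_zero] at hbm
        exact zero_ne_one hbm
      have h1x : (1 - x : AO O K) ≠ 0 := by
        rw [← hpx]
        exact pf_ne (b m) hbm0 (e m)
      have h1y : (1 - y : AO O K) ≠ 0 := by
        intro h1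
        have h2 : y = 1 := (sub_eq_zero.mp h1).symm
        rw [h2, mul_one] at hxy
        exact h1x (by rw [hxy, sub_self])
      have hsXj : sharp Xj = (1 - y) * sharp X' + y * (T * sharp V') := by
        conv_lhs => rw [hsplit]
        rw [map_add, map_mul, map_mul, map_mul, map_sub, map_one, hsx, hsT]
      have hsV : sharp (VJ c G J) = (1 - y) * sharp V' := by
        rw [hins, map_mul, map_sub, map_one, hsx]
      rw [hsV, hsXj, hins] at hJe
      conv_lhs at hJe => rw [hsplit]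
      apply mul_left_cancel₀ (mul_ne_zero h1x h1y)
      linear_combination hJe + T * V' * sharp V' * hxy

end Ind

end Pool.Agent.B5.H76
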